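import Mathlib

/-!
# Orthonormal families adapted to a flag, and Bessel's inequality, for plain functions
-/

set_option autoImplicit false

open Finset

namespace Pool.Agent.H90.CH

/-- Bessel's inequality. -/
theorem bessel {X J : Type*} [Fintype X] [Fintype J] [DecidableEq J] (e : J → X → ℝ)
    (he : ∀ j k, ∑ x, e j x * e k x = if j = k then 1 else 0) (M : X → ℝ) :
    ∑ j, (∑ x, M x * e j x) ^ 2 ≤ ∑ x, M x ^ 2 := by
  set c : J → ℝ := fun j => ∑ x, M x * e j x with hc
  have h0 : 0 ≤ ∑ x, (M x - ∑ j, c j * e j x) ^ 2 := Finset.sum_nonneg fun _ _ => sq_nonneg _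
  have h1 : ∑ x, (M x - ∑ j, c j * e j x) ^ 2 =
      ∑ x, M x ^ 2 - 2 * ∑ x, M x * (∑ j, c j * e j x) + ∑ x, (∑ j, c j * e j x) ^ 2 := by
    rw [Finset.mul_sum, ← Finset.sum_sub_distrib, ← Finset.sum_add_distrib]
    exact Finset.sum_congr rfl fun x _ => by ring
  have h2 : ∑ x, M x * (∑ j, c j * e j x) = ∑ j, c j ^ 2 := by
    simp only [Finset.mul_sum]
    rw [Finset.sum_comm]
    refine Finset.sum_congr rfl fun j _ => ?_
    rw [sq]
    nth_rewrite 3 [hc]
    simp only
    rw [Finset.mul_sum]
    exact Finset.sum_congr rfl fun x _ => by ring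
  have h3 : ∑ x, (∑ j, c j * e j x) ^ 2 = ∑ j, c j ^ 2 := by
    have : ∀ x, (∑ j, c j * e j x) ^ 2 = ∑ j, ∑ k, c j * c k * (e j x * e k x) := by
      intro x
      rw [sq, Finset.sum_mul_sum]
      exact Finset.sum_congr rfl fun j _ => Finset.sum_congr rfl fun k _ => by ring
    simp only [this]
    rw [Finset.sum_comm]
    refine Finset.sum_congr rfl fun j _ => ?_
    rw [Finset.sum_comm]
    simp only [← Finset.mul_sum, he]
    simp [sq]
  rw [h1, h2, h3] at h0
  have : ∑ j, (∑ x, M x * e j x) ^ 2 = ∑ j, c j ^ 2 := rfl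
  linarith

/-- An orthonormal family adapted to the flag of the spans. -/
theorem flag {ι Y : Type*} [Fintype Y] [DecidableEq ι] (w : ι → ℝ) (x : ι → Y → ℝ) (s : Finset ι)
    (hx : LinearIndepOn ℝ x (s : Set ι)) :
    ∃ u : ι → Y → ℝ, (∀ y ∈ s, u y ∈ Submodule.span ℝ (x '' {z | z ∈ s ∧ w y ≤ w z})) ∧
      ∀ y ∈ s, ∀ z ∈ s, ∑ t, u y t * u z t = if y = z then 1 else 0 := by
  induction s using Finset.induction_on_min_value w with
  | empty => exact ⟨x, by simp, by simp⟩
  | insert a s ha hmin ih =>
    have hx' : LinearIndepOn ℝ x (s : Set ι) := hx.mono (by simp)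
    obtain ⟨u, hu1, hu2⟩ := ih hx'
    set W : Submodule ℝ (Y → ℝ) := Submodule.span ℝ (x '' ((insert a s : Finset ι) : Set ι)) with hW
    have hfin : Module.finrank ℝ W = s.card + 1 := by
      rw [hW, Set.image_eq_range]
      have := finrank_span_eq_card (R := ℝ) hx
      rw [this]
      simp [ha]
    -- the coefficient map
    let φ : W →ₗ[ℝ] (↥s → ℝ) :=
      { toFun := fun v z => ∑ t, (v : Y → ℝ) t * u (z : ι) t
        map_add' := by
          intro v v'; funext z
          simp only [Submodule.coe_add, Pi.add_apply, add_mul, Finset.sum_add_distrib]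
        map_smul' := by
          intro c v; funext z
          simp only [Submodule.coe_smul, Pi.smul_apply, smul_eq_mul, RingHom.id_apply, Finset.mul_sum]
          exact Finset.sum_congr rfl fun t _ => by ring }
    have hker : LinearMap.ker φ ≠ ⊥ := by
      apply LinearMap.ker_ne_bot_of_finrank_lt
      rw [hfin, Module.finrank_fintype_fun_eq_card]
      simp
    obtain ⟨v, hv, hv0⟩ := Submodule.exists_mem_ne_zero_of_ne_bot hker
    have hvort : ∀ z ∈ s, ∑ t, (v : Y → ℝ) t * u z t = 0 := by
      intro z hz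
      have := congrFun (LinearMap.mem_ker.1 hv) ⟨z, hz⟩
      exact this
    have hvv : 0 < ∑ t, (v : Y → ℝ) t * (v : Y → ℝ) t := by
      have hne : (v : Y → ℝ) ≠ 0 := by
        intro h; exact hv0 (Subtype.ext h)
      obtain ⟨t, ht⟩ := Function.ne_iff.1 hne
      refine Finset.sum_pos' (fun t _ => mul_self_nonneg _) ⟨t, Finset.mem_univ t, ?_⟩
      exact mul_self_pos.2 ht
    set q : ℝ := Real.sqrt (∑ t, (v : Y → ℝ) t * (v : Y → ℝ) t) with hq
    have hqpos : 0 < q := Real.sqrt_pos.2 hvv
    have hqq : q * q = ∑ t, (v : Y → ℝ) t * (v : Y → ℝ) t := Real.mul_self_sqrt hvv.le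
    refine ⟨fun y => if y = a then q⁻¹ • (v : Y → ℝ) else u y, ?_, ?_⟩
    · intro y hy
      rcases Finset.mem_insert.1 hy with rfl | hys
      · simp only [if_true]
        refine Submodule.smul_mem _ _ ?_
        refine Submodule.span_mono (Set.image_mono ?_) v.2
        intro z hz
        rw [Finset.mem_coe] at hz
        refine ⟨hz, ?_⟩
        rcases Finset.mem_insert.1 hz with rfl | hz
        · exact le_rfl
        · exact hmin z hz
      · have hya : y ≠ a := fun h => ha (h ▸ hys)
        simp only [hya, if_false]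
        refine Submodule.span_mono (Set.image_mono ?_) (hu1 y hys)
        rintro z ⟨hz, hwz⟩
        exact ⟨Finset.mem_insert_of_mem hz, hwz⟩
    · intro y hy z hz
      rcases Finset.mem_insert.1 hy with hya | hys
      · rcases Finset.mem_insert.1 hz with hza | hzs
        · subst hya; subst hza
          simp only [if_true, Pi.smul_apply, smul_eq_mul]
          have : ∀ t, q⁻¹ * (v : Y → ℝ) t * (q⁻¹ * (v : Y → ℝ) t) = (q⁻¹ * q⁻¹) * ((v : Y → ℝ) t * (v : Y → ℝ) t) :=
            fun t => by ring
          simp only [this]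
          rw [← Finset.mul_sum, ← hqq]
          field_simp
        · have hza : z ≠ a := fun h => ha (h ▸ hzs)
          have hyz : y ≠ z := fun h => hza (h ▸ hya)
          simp only [hya, hza, if_true, if_false, Pi.smul_apply, smul_eq_mul, mul_assoc]
          rw [← Finset.mul_sum, hvort z hzs, mul_zero]
          simp [Ne.symm hza]
      · have hya : y ≠ a := fun h => ha (h ▸ hys)
        rcases Finset.mem_insert.1 hz with hza | hzs
        · have hyz : y ≠ z := fun h => hya (h.trans hza)
          simp only [hya, hza, if_true, if_false, Pi.smul_apply, smul_eq_mul]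
          have : ∀ t, u y t * (q⁻¹ * (v : Y → ℝ) t) = q⁻¹ * ((v : Y → ℝ) t * u y t) := fun t => by ring
          simp only [this]
          rw [← Finset.mul_sum, hvort y hys, mul_zero]
        · have hza : z ≠ a := fun h => ha (h ▸ hzs)
          simp only [hya, hza, if_false]
          exact hu2 y hys z hzs

end Pool.Agent.H90.CH
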