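import Pool.Agent.H60.Flow.Cor
import Pool.Agent.H90.CH.Orth

/-!
# The weighted flow for antipodal functions (second, independent formalisation)
-/

set_option autoImplicit false
set_option linter.unusedSectionVars false

open Finset

namespace Pool.Agent.H90.CH

open Pool.Agent.H60.Flow

variable {ι : Type*} [Fintype ι] [DecidableEq ι]

/-- The signed indicator of the sets above `B`. -/
def xb (B Y : Finset ι) : ℝ := if B ⊆ Y then (-1) ^ Y.card else 0

theorem xb_self (B : Finset ι) : xb B B ≠ 0 := by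
  unfold xb; simp

theorem xb_four {B S : Finset ι} (h : ¬ Bᶜ ⊆ S) : ∑ Y, xb B Y * ch S Y = 0 := by
  obtain ⟨i, hi, hiS⟩ := Finset.not_subset.1 h
  rw [Finset.mem_compl] at hi
  have h2 := sum_pm i (fun Y => xb B Y * ch S Y)
  have h3 : ∀ Y : Finset ι, xb B (insert i Y) * ch S (insert i Y) + xb B (Y.erase i) * ch S (Y.erase i) = 0 := by
    intro Y
    rw [(ch_insert_erase hiS Y).1, (ch_insert_erase hiS Y).2]
    have h4 : xb B (insert i Y) = - xb B (Y.erase i) := by
      unfold xb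
      have e1 : B ⊆ insert i Y ↔ B ⊆ Y.erase i := by
        constructor
        · intro hB x hx
          have hxi : x ≠ i := fun h => hi (h ▸ hx)
          exact Finset.mem_erase.2 ⟨hxi, (Finset.mem_insert.1 (hB hx)).resolve_left hxi⟩
        · exact fun hB => hB.trans ((Finset.erase_subset _ _).trans (Finset.subset_insert _ _))
      have e2 : (insert i Y).card = (Y.erase i).card + 1 := by
        have : insert i Y = insert i (Y.erase i) := by
          ext x; simp only [Finset.mem_insert, Finset.mem_erase]; tauto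
        rw [this, Finset.card_insert_of_notMem (Finset.notMem_erase i Y)]
      rw [e2]
      simp only [e1]
      split_ifs <;> ring
    rw [h4]; ring
  simp only [h3, Finset.sum_const_zero] at h2
  linarith

theorem linInd_xb (s : Finset (Finset ι)) : LinearIndepOn ℝ xb (s : Set (Finset ι)) := by
  rw [linearIndepOn_finset_iff]
  intro c hc
  have hc' : ∀ Y, ∑ B ∈ s, c B * xb B Y = 0 := by
    intro Y
    have := congrFun hc Y
    simpa [Finset.sum_apply] using this
  have key : ∀ m : ℕ, ∀ B ∈ s, B.card = m → c B = 0 := by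
    intro m
    induction m using Nat.strong_induction_on with
    | _ m ih =>
      intro B hB hm
      have h1 := hc' B
      rw [Finset.sum_eq_single_of_mem B hB] at h1
      · rcases mul_eq_zero.1 h1 with h | h
        · exact h
        · exact absurd h (xb_self B)
      · intro B' hB' hne
        by_cases hs : B' ⊆ B
        · have hlt : B'.card < m := hm ▸ Finset.card_lt_card (Finset.ssubset_iff_subset_ne.2 ⟨hs, hne⟩)
          rw [ih _ hlt B' hB' rfl, zero_mul]
        · simp [xb, hs]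
  exact fun B hB => key _ B hB rfl

/-- The unnormalised Fourier coefficients. -/
def fo (u : Finset ι → ℝ) (S : Finset ι) : ℝ := ∑ Y, u Y * ch S Y

theorem sum_ch_mul (Y Y' : Finset ι) :
    ∑ S : Finset ι, ch S Y * ch S Y' = if Y = Y' then 2 ^ Fintype.card ι else 0 := by
  rw [← kr_univ, kr_eq, Finset.powerset_univ]

theorem fo_inv (u : Finset ι → ℝ) (Y : Finset ι) :
    ∑ S, fo u S * ch S Y = 2 ^ Fintype.card ι * u Y := by
  unfold fo
  simp only [Finset.sum_mul]
  rw [Finset.sum_comm]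
  have : ∀ Y' : Finset ι, ∑ S, u Y' * ch S Y' * ch S Y = u Y' * (if Y' = Y then 2 ^ Fintype.card ι else 0) := by
    intro Y'
    rw [← sum_ch_mul, Finset.mul_sum]
    exact Finset.sum_congr rfl fun S _ => by ring
  simp only [this, mul_ite, mul_zero, Finset.sum_ite_eq', Finset.mem_univ, if_true]
  ring

theorem fo_pl (u v : Finset ι → ℝ) : ∑ S, fo u S * fo v S = 2 ^ Fintype.card ι * ∑ Y, u Y * v Y := by
  have h1 : ∀ S, fo u S * fo v S = ∑ Y, v Y * (fo u S * ch S Y) := by
    intro S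
    nth_rewrite 2 [fo]
    rw [Finset.mul_sum]
    exact Finset.sum_congr rfl fun Y _ => by ring
  simp only [h1]
  rw [Finset.sum_comm]
  simp only [← Finset.mul_sum, fo_inv]
  rw [Finset.mul_sum]
  exact Finset.sum_congr rfl fun Y _ => by ring

theorem ch_mul_ch (S T A : Finset ι) : ch S A * ch T A = ch (symmDiff S T) A := by
  have h1 : ch S A = ch (S \ T) A * ch (S ∩ T) A := by
    unfold ch
    rw [← Finset.prod_union (Finset.disjoint_sdiff_inter S T), Finset.sdiff_union_inter]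
  have h2 : ch T A = ch (T \ S) A * ch (S ∩ T) A := by
    unfold ch
    rw [Finset.inter_comm, ← Finset.prod_union (Finset.disjoint_sdiff_inter T S), Finset.sdiff_union_inter]
  have h3 : ch (symmDiff S T) A = ch (S \ T) A * ch (T \ S) A := by
    unfold ch
    rw [← Finset.prod_union]
    · rfl
    · exact disjoint_sdiff_sdiff
  rw [h1, h2, h3]
  linear_combination (ch (S \ T) A * ch (T \ S) A) * ch_sq (S ∩ T) A

/-- The quadratic form of multiplication by `f` in Fourier space. -/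
theorem form_eq (f u : Finset ι → ℝ) :
    ∑ S, ∑ T, hat f (symmDiff S T) * (fo u S * fo u T) = 2 ^ Fintype.card ι * ∑ Y, f Y * u Y ^ 2 := by
  have h1 : ∀ S T : Finset ι, hat f (symmDiff S T) * (fo u S * fo u T) =
      (2 ^ Fintype.card ι)⁻¹ * ∑ Y, f Y * ((fo u S * ch S Y) * (fo u T * ch T Y)) := by
    intro S T
    unfold hat av
    rw [div_mul_eq_mul_div, div_eq_inv_mul, Finset.sum_mul]
    congr 1
    refine Finset.sum_congr rfl fun Y _ => ?_
    rw [← ch_mul_ch]; ring
  simp only [h1, ← Finset.mul_sum]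
  have h2 : ∑ S : Finset ι, ∑ T : Finset ι, ∑ Y, f Y * ((fo u S * ch S Y) * (fo u T * ch T Y)) =
      ∑ Y, f Y * (2 ^ Fintype.card ι * u Y) ^ 2 := by
    have h3 : ∀ Y, f Y * (2 ^ Fintype.card ι * u Y) ^ 2 =
        ∑ S, ∑ T, f Y * ((fo u S * ch S Y) * (fo u T * ch T Y)) := by
      intro Y
      rw [← fo_inv, sq, Finset.sum_mul_sum, Finset.mul_sum]
      exact Finset.sum_congr rfl fun S _ => by rw [Finset.mul_sum]
    simp only [h3]
    rw [Finset.sum_comm (s := univ) (t := univ) (f := fun Y S => ∑ T, f Y * ((fo u S * ch S Y) * (fo u T * ch T Y)))]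
    exact Finset.sum_congr rfl fun S _ => Finset.sum_comm
  rw [h2]
  have hN : (2 ^ Fintype.card ι : ℝ) ≠ 0 := by positivity
  rw [Finset.mul_sum, Finset.mul_sum]
  refine Finset.sum_congr rfl fun Y _ => ?_
  field_simp

theorem fo_add (u v : Finset ι → ℝ) (S : Finset ι) : fo (u + v) S = fo u S + fo v S := by
  unfold fo; rw [← Finset.sum_add_distrib]
  exact Finset.sum_congr rfl fun Y _ => by simp only [Pi.add_apply]; ring

theorem fo_smul (c : ℝ) (u : Finset ι → ℝ) (S : Finset ι) : fo (c • u) S = c * fo u S := by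
  unfold fo; rw [Finset.mul_sum]
  exact Finset.sum_congr rfl fun Y _ => by simp only [Pi.smul_apply, smul_eq_mul]; ring

theorem sum_compl (F : Finset ι → ℝ) : ∑ Y : Finset ι, F Yᶜ = ∑ Y, F Y :=
  Equiv.sum_comp (Equiv.mk (fun A : Finset ι => Aᶜ) (fun A => Aᶜ) (fun A => compl_compl A)
    (fun A => compl_compl A)) F

theorem fo_compl (u : Finset ι → ℝ) (S : Finset ι) : fo (fun Y => u Yᶜ) S = (-1) ^ S.card * fo u S := by
  unfold fo
  rw [← sum_compl (fun Y => u Yᶜ * ch S Y), Finset.mul_sum]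
  refine Finset.sum_congr rfl fun Y _ => ?_
  rw [compl_compl, ch_compl]; ring

/-- The functions supported on `{f ≥ c}` with Fourier support in `{S : Sᶜ ∈ I}`. -/
def good (f : Finset ι → ℝ) (I : Finset (Finset ι)) (c : ℝ) : Submodule ℝ (Finset ι → ℝ) where
  carrier := {h | (∀ Y, f Y < c → h Y = 0) ∧ ∀ S : Finset ι, Sᶜ ∉ I → fo h S = 0}
  add_mem' := by
    rintro a b ⟨ha1, ha2⟩ ⟨hb1, hb2⟩
    refine ⟨fun Y hY => ?_, fun S hS => ?_⟩
    · simp [ha1 Y hY, hb1 Y hY]
    · rw [fo_add, ha2 S hS, hb2 S hS, add_zero]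
  zero_mem' := by
    refine ⟨fun Y _ => rfl, fun S _ => ?_⟩
    simp [fo]
  smul_mem' := by
    rintro c a ⟨ha1, ha2⟩
    refine ⟨fun Y hY => ?_, fun S hS => ?_⟩
    · simp [ha1 Y hY]
    · rw [fo_smul, ha2 S hS, mul_zero]

theorem xb_good {f : Finset ι → ℝ} (hf : Monotone f) {I : Finset (Finset ι)}
    (hI : ∀ A B : Finset ι, A ⊆ B → B ∈ I → A ∈ I) {z : Finset ι} (hz : z ∈ I) {c : ℝ} (hc : c ≤ f z) :
    xb z ∈ good f I c := by
  refine ⟨fun Y hY => ?_, fun S hS => ?_⟩
  · unfold xb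
    rw [if_neg]
    intro h
    exact absurd (hf h) (not_le.2 (hY.trans_le hc))
  · refine xb_four fun h => hS (hI _ _ ?_ hz)
    intro x hx
    rw [Finset.mem_compl] at hx
    by_contra hxz
    exact hx (h (Finset.mem_compl.2 hxz))

theorem core (f : Finset ι → ℝ) (hf : Monotone f) (ha : ∀ A, f Aᶜ = - f A) (I : Finset (Finset ι))
    (hI : ∀ A B : Finset ι, A ⊆ B → B ∈ I → A ∈ I) :
    2 * ∑ B ∈ I, (max (f B) 0) ^ 2 ≤
      ∑ S : Finset ι, ∑ T : Finset ι, (if Sᶜ ∈ I ∧ Tᶜ ∈ I then hat f (symmDiff S T) else 0) ^ 2 := by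
  classical
  set s : Finset (Finset ι) := I.filter (fun B => 0 < f B) with hs
  obtain ⟨u, hu1, hu2⟩ := flag f xb s (linInd_xb s)
  have hN : (0 : ℝ) < 2 ^ Fintype.card ι := by positivity
  have hgood : ∀ y ∈ s, u y ∈ good f I (f y) := by
    intro y hy
    refine (Submodule.span_le.2 ?_) (hu1 y hy)
    rintro _ ⟨z, ⟨hz, hyz⟩, rfl⟩
    exact xb_good hf hI (Finset.mem_filter.1 hz).1 hyz
  have hpos : ∀ y ∈ s, 0 < f y := fun y hy => (Finset.mem_filter.1 hy).2
  -- the doubled family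
  let U : Bool × ↥s → Finset ι → ℝ := fun j Y => if j.1 then u (j.2 : Finset ι) Y else u (j.2 : Finset ι) Yᶜ
  have hcross : ∀ y ∈ s, ∀ z ∈ s, ∀ Y, u y Y * u z Yᶜ = 0 := by
    intro y hy z hz Y
    by_contra hne
    have h1 : ¬ f Y < f y := fun h => hne (by rw [(hgood y hy).1 Y h, zero_mul])
    have h2 : ¬ f Yᶜ < f z := fun h => hne (by rw [(hgood z hz).1 _ h, mul_zero])
    rw [ha] at h2
    have := hpos y hy
    have := hpos z hz
    push Not at h1 h2
    linarith
  have hUorth : ∀ j k, ∑ Y, U j Y * U k Y = if j = k then 1 else 0 := by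
    rintro ⟨b, y, hy⟩ ⟨b', z, hz⟩
    cases b <;> cases b'
    · have : ∑ Y : Finset ι, u y Yᶜ * u z Yᶜ = ∑ Y, u y Y * u z Y := sum_compl (fun Y => u y Y * u z Y)
      simp only [U, Bool.false_eq_true, if_false, this, hu2 y hy z hz, Prod.mk.injEq, true_and,
        Subtype.mk.injEq]
    · have : ∀ Y, u y Yᶜ * u z Y = 0 := fun Y => by rw [mul_comm]; exact hcross z hz y hy Y
      simp [U, this]
    · have : ∀ Y, u y Y * u z Yᶜ = 0 := fun Y => hcross y hy z hz Y
      simp [U, this]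
    · simp only [U, if_true, hu2 y hy z hz, Prod.mk.injEq, true_and, Subtype.mk.injEq]
  have hUfour : ∀ j, ∀ S : Finset ι, Sᶜ ∉ I → fo (U j) S = 0 := by
    rintro ⟨b, y, hy⟩ S hS
    have h0 := (hgood y hy).2 S hS
    cases b
    · have : U (false, ⟨y, hy⟩) = fun Y => u y Yᶜ := by funext Y; simp [U]
      rw [this, fo_compl, h0, mul_zero]
    · have : U (true, ⟨y, hy⟩) = u y := by funext Y; simp [U]
      rw [this, h0]
  -- the values of the form
  have hq : ∀ y ∈ s, f y ≤ ∑ Y, f Y * u y Y ^ 2 := by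
    intro y hy
    have h1 : f y = ∑ Y, f y * u y Y ^ 2 := by
      rw [← Finset.mul_sum]
      have := hu2 y hy y hy
      simp only [if_true] at this
      have h2 : ∑ Y, u y Y ^ 2 = 1 := by
        rw [← this]; exact Finset.sum_congr rfl fun Y _ => sq _
      rw [h2, mul_one]
    nth_rewrite 1 [h1]
    refine Finset.sum_le_sum fun Y _ => ?_
    by_cases h : f Y < f y
    · rw [(hgood y hy).1 Y h]; simp
    · exact mul_le_mul_of_nonneg_right (not_lt.1 h) (sq_nonneg _)
  have hneg : ∀ y, ∑ Y, f Y * u y Yᶜ ^ 2 = - ∑ Y, f Y * u y Y ^ 2 := by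
    intro y
    rw [← sum_compl (fun Y => f Y * u y Yᶜ ^ 2), ← Finset.sum_neg_distrib]
    refine Finset.sum_congr rfl fun Y _ => ?_
    rw [compl_compl, ha]; ring
  -- Bessel
  let e : Bool × ↥s → Finset ι × Finset ι → ℝ := fun j x =>
    (2 ^ Fintype.card ι)⁻¹ * (fo (U j) x.1 * fo (U j) x.2)
  let M : Finset ι × Finset ι → ℝ := fun x => if x.1ᶜ ∈ I ∧ x.2ᶜ ∈ I then hat f (symmDiff x.1 x.2) else 0
  have he : ∀ j k, ∑ x, e j x * e k x = if j = k then 1 else 0 := by
    intro j k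
    have h1 : ∑ x, e j x * e k x = (2 ^ Fintype.card ι)⁻¹ ^ 2 * (∑ S, fo (U j) S * fo (U k) S) ^ 2 := by
      rw [Fintype.sum_prod_type, sq (∑ S, fo (U j) S * fo (U k) S), Finset.sum_mul_sum, Finset.mul_sum]
      refine Finset.sum_congr rfl fun S _ => ?_
      rw [Finset.mul_sum]
      exact Finset.sum_congr rfl fun T _ => by simp only [e]; ring
    rw [h1, fo_pl, hUorth]
    split_ifs
    · field_simp
    · simp
  have hM : ∀ j, ∑ x, M x * e j x = ∑ Y, f Y * U j Y ^ 2 := by
    intro j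
    have h1 : ∑ x, M x * e j x =
        (2 ^ Fintype.card ι)⁻¹ * ∑ S, ∑ T, hat f (symmDiff S T) * (fo (U j) S * fo (U j) T) := by
      rw [Fintype.sum_prod_type, Finset.mul_sum]
      refine Finset.sum_congr rfl fun S _ => ?_
      rw [Finset.mul_sum]
      refine Finset.sum_congr rfl fun T _ => ?_
      simp only [M, e]
      by_cases hS : Sᶜ ∈ I
      · by_cases hT : Tᶜ ∈ I
        · rw [if_pos ⟨hS, hT⟩]; ring
        · rw [hUfour j T hT]; ring
      · rw [hUfour j S hS]; ring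
    rw [h1, form_eq]
    field_simp
  have hB := bessel e he M
  simp only [hM] at hB
  rw [Fintype.sum_prod_type, Fintype.sum_bool] at hB
  have h1 : ∑ y : ↥s, (∑ Y, f Y * U (true, y) Y ^ 2) ^ 2 = ∑ y ∈ s, (∑ Y, f Y * u y Y ^ 2) ^ 2 := by
    rw [← Finset.sum_coe_sort s (fun y => (∑ Y, f Y * u y Y ^ 2) ^ 2)]
    refine Finset.sum_congr rfl fun y _ => ?_
    simp [U]
  have h2 : ∑ y : ↥s, (∑ Y, f Y * U (false, y) Y ^ 2) ^ 2 = ∑ y ∈ s, (∑ Y, f Y * u y Y ^ 2) ^ 2 := by
    rw [← Finset.sum_coe_sort s (fun y => (∑ Y, f Y * u y Y ^ 2) ^ 2)]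
    refine Finset.sum_congr rfl fun y _ => ?_
    have : ∑ Y, f Y * U (false, y) Y ^ 2 = ∑ Y, f Y * u (y : Finset ι) Yᶜ ^ 2 := by simp [U]
    rw [this, hneg, neg_sq]
  rw [h1, h2] at hB
  have h3 : ∑ B ∈ I, (max (f B) 0) ^ 2 ≤ ∑ y ∈ s, (∑ Y, f Y * u y Y ^ 2) ^ 2 := by
    rw [hs, Finset.sum_filter]
    refine Finset.sum_le_sum fun B hB' => ?_
    split_ifs with h
    · rw [max_eq_left h.le]
      have hBs : B ∈ s := Finset.mem_filter.2 ⟨hB', h⟩
      exact pow_le_pow_left₀ h.le (hq B hBs) 2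
    · rw [max_eq_right (not_lt.1 h)]; simp
  have h4 : ∑ x, M x ^ 2 = ∑ S : Finset ι, ∑ T : Finset ι,
      (if Sᶜ ∈ I ∧ Tᶜ ∈ I then hat f (symmDiff S T) else 0) ^ 2 := by
    rw [Fintype.sum_prod_type]
  rw [h4] at hB
  linarith

end Pool.Agent.H90.CH
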