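import Pool.Agent.H90.CH.Core

/-!
# Q1 of MP_e87df5_co (second, independent formalisation)
-/

set_option autoImplicit false
set_option linter.unusedSectionVars false

open Finset

namespace Pool.Agent.H90.CH

open Pool.Agent.H60.Flow

variable {ι : Type*} [Fintype ι] [DecidableEq ι]

/-- For a fixed shift `T`, the number of members of `I` whose shift is in `I` is at most twice a star. -/
theorem count_le (I : Finset (Finset ι)) (T : Finset ι) {i : ι} (hi : i ∈ T) :
    ((univ.filter (fun S : Finset ι => Sᶜ ∈ I ∧ (symmDiff S T)ᶜ ∈ I)).card : ℝ) ≤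
      2 * ((I.filter (fun B => i ∈ B)).card : ℝ) := by
  classical
  set P := univ.filter (fun S : Finset ι => Sᶜ ∈ I ∧ (symmDiff S T)ᶜ ∈ I) with hP
  have h1 : (P.filter (fun S => i ∉ S)).card ≤ (I.filter (fun B => i ∈ B)).card := by
    refine Finset.card_le_card_of_injOn (fun S => Sᶜ) ?_ (fun a _ b _ h => compl_injective h)
    intro S hS
    simp only [hP, Finset.coe_filter, Finset.mem_filter, Finset.mem_univ, true_and, Set.mem_ofPred_eq] at hS ⊢
    exact ⟨hS.1.1, Finset.mem_compl.2 hS.2⟩
  have h2 : (P.filter (fun S => ¬ i ∉ S)).card ≤ (I.filter (fun B => i ∈ B)).card := by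
    refine Finset.card_le_card_of_injOn (fun S => (symmDiff S T)ᶜ) ?_ ?_
    · intro S hS
      simp only [hP, Finset.coe_filter, Finset.mem_filter, Finset.mem_univ, true_and, Set.mem_ofPred_eq,
        not_not] at hS ⊢
      refine ⟨hS.1.2, Finset.mem_compl.2 ?_⟩
      rw [Finset.mem_symmDiff]
      rintro (h | h)
      · exact h.2 hi
      · exact h.2 hS.2
    · intro a _ b _ h
      exact symmDiff_left_injective T (compl_injective h)
  have h3 := Finset.card_filter_add_card_filter_not (s := P) (fun S => i ∉ S)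
  have h4 : P.card ≤ 2 * (I.filter (fun B => i ∈ B)).card := by omega
  exact_mod_cast h4

theorem double_sum (f : Finset ι → ℝ) (I : Finset (Finset ι)) :
    ∑ S : Finset ι, ∑ T : Finset ι, (if Sᶜ ∈ I ∧ Tᶜ ∈ I then hat f (symmDiff S T) else 0) ^ 2 =
      ∑ T : Finset ι, hat f T ^ 2 *
        ((univ.filter (fun S : Finset ι => Sᶜ ∈ I ∧ (symmDiff S T)ᶜ ∈ I)).card : ℝ) := by
  classical
  have h1 : ∀ S : Finset ι, ∑ T : Finset ι, (if Sᶜ ∈ I ∧ Tᶜ ∈ I then hat f (symmDiff S T) else 0) ^ 2 =
      ∑ T : Finset ι, (if Sᶜ ∈ I ∧ (symmDiff S T)ᶜ ∈ I then hat f T ^ 2 else 0) := by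
    intro S
    have h2 := Equiv.sum_comp (Equiv.mk (fun A : Finset ι => symmDiff S A) (fun A => symmDiff S A)
      (fun A => by simp) (fun A => by simp))
      (fun T : Finset ι => (if Sᶜ ∈ I ∧ Tᶜ ∈ I then hat f (symmDiff S T) else 0) ^ 2)
    rw [← h2]
    refine Finset.sum_congr rfl fun T _ => ?_
    simp only [Equiv.coe_fn_mk]
    have h3 : symmDiff S (symmDiff S T) = T := by simp
    rw [h3]
    split_ifs <;> simp
  simp only [h1]
  rw [Finset.sum_comm]
  refine Finset.sum_congr rfl fun T _ => ?_
  rw [← Finset.sum_filter, Finset.sum_const, nsmul_eq_mul, mul_comm]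

end Pool.Agent.H90.CH

namespace Pool.Agent.H90.CH

open Pool.Agent.H60.Flow

variable {n : ℕ}

/-- The inequality over decreasing families. -/
theorem sum_le (f : Finset (Fin n) → ℝ) (hf : Monotone f) (ha : Antip f) (I : Finset (Finset (Fin n)))
    (hI : ∀ A B : Finset (Fin n), A ⊆ B → B ∈ I → A ∈ I) : ∑ A ∈ I, sqp f A ≤ ∑ A ∈ I, til f A := by
  classical
  have h1 := core f hf ha I hI
  rw [double_sum] at h1
  have h2 : ∑ T : Finset (Fin n), hat f T ^ 2 *
        ((univ.filter (fun S : Finset (Fin n) => Sᶜ ∈ I ∧ (symmDiff S T)ᶜ ∈ I)).card : ℝ) ≤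
      2 * ∑ i, lam f i * ((I.filter (fun B => i ∈ B)).card : ℝ) := by
    rw [sum_lam_mul, Finset.mul_sum]
    refine Finset.sum_le_sum fun T _ => ?_
    by_cases h : T.Nonempty
    · rw [dif_pos h]
      have := count_le I T (Finset.max'_mem T h)
      nlinarith [sq_nonneg (hat f T)]
    · have h0 : T = ∅ := Finset.not_nonempty_iff_eq_empty.1 h
      have h3 : hat f T = 0 := hat_odd ha (by rw [h0]; simp)
      rw [h3]; simp
  have h4 : ∑ A ∈ I, til f A = ∑ i, lam f i * ((I.filter (fun B => i ∈ B)).card : ℝ) := by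
    unfold til
    have : ∀ A ∈ I, ∑ i ∈ A, lam f i = ∑ i, if i ∈ A then lam f i else 0 := fun A _ => by simp
    rw [Finset.sum_congr rfl this, Finset.sum_comm]
    refine Finset.sum_congr rfl fun i _ => ?_
    rw [← Finset.sum_filter, Finset.sum_const, nsmul_eq_mul, mul_comm]
  rw [h4]
  have h5 : 2 * ∑ A ∈ I, sqp f A ≤ 2 * ∑ i, lam f i * ((I.filter (fun B => i ∈ B)).card : ℝ) := h1.trans h2
  linarith

theorem sum_eq (f : Finset (Fin n) → ℝ) (ha : Antip f) : ∑ A, sqp f A = ∑ A, til f A := by
  have h1 := av_sqp ha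
  have h2 := av_mul_til (fun _ => 1) f
  have h3 : av f = 0 := by
    rw [← hat_empty]; exact hat_odd ha (by simp)
  have h4 : ∀ i, kap (fun _ : Finset (Fin n) => (1 : ℝ)) i = 0 := by
    intro i; unfold kap; exact hat_const 1 (Finset.singleton_nonempty i)
  simp only [one_mul, av_const, h3, h4, mul_zero, Finset.sum_const_zero, add_zero, mul_one] at h2
  rw [sum_eq_av, sum_eq_av, h1]
  have h5 : av (til f) = (av (fun A => f A ^ 2) - 0 ^ 2) / 2 := h2
  rw [h5]; ring

/-- **Q1.** -/
theorem q1 (f : Finset (Fin n) → ℝ) (hf : Monotone f) (ha : Antip f) : Flows (til f) (sqp f) := by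
  classical
  refine flows_of_le (til_nonneg f) (fun A => sq_nonneg _) fun K hK => ?_
  -- up-sets
  have hup : ∀ U : Finset (Finset (Fin n)), (∀ A B : Finset (Fin n), A ⊆ B → A ∈ U → B ∈ U) →
      0 ≤ ∑ A ∈ U, (sqp f A - til f A) := by
    intro U hU
    have h1 := sum_le f hf ha Uᶜ (fun A B hAB hB => by
      rw [Finset.mem_compl] at hB ⊢
      exact fun h => hB (hU A B hAB h))
    have h2 := sum_eq f ha
    rw [← Finset.sum_add_sum_compl U (sqp f), ← Finset.sum_add_sum_compl U (til f)] at h2
    rw [Finset.sum_sub_distrib]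
    linarith
  -- layers
  have hlay : ∀ g : Finset (Fin n) → ℝ, (∀ A, 0 ≤ g A) → Monotone g → 0 ≤ ∑ A, g A * (sqp f A - til f A) := by
    intro g hg
    revert g
    refine layer_induction ?_ ?_
    · intro _; simp
    · intro g hg t ht hmin _ ih hmono
      have hm' : Monotone (fun x => if g x = 0 then 0 else g x - t) := by
        intro A B hAB
        simp only
        by_cases hA : g A = 0
        · rw [if_pos hA]
          split_ifs with hB
          · exact le_rfl
          · linarith [hmin B hB]
        · have hB : g B ≠ 0 := by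
            have := hmono hAB
            have := hmin A hA
            intro h; linarith
          rw [if_neg hA, if_neg hB]
          linarith [hmono hAB]
      have h1 := ih hm'
      have h2 := hup (univ.filter (fun A => g A ≠ 0)) (fun A B hAB hA => by
        simp only [Finset.mem_filter, Finset.mem_univ, true_and] at hA ⊢
        have := hmono hAB
        have := hmin A hA
        intro h; linarith)
      rw [Finset.sum_filter] at h2
      have h3 : ∑ A, g A * (sqp f A - til f A) =
          ∑ A, (if g A = 0 then 0 else g A - t) * (sqp f A - til f A) +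
            t * ∑ A, (if g A ≠ 0 then sqp f A - til f A else 0) := by
        rw [Finset.mul_sum, ← Finset.sum_add_distrib]
        refine Finset.sum_congr rfl fun A _ => ?_
        by_cases h : g A = 0
        · simp [h]
        · simp only [h, if_false, ne_eq, not_false_eq_true, if_true]; ring
      rw [h3]
      have := mul_nonneg ht.le h2
      linarith
  obtain ⟨c, hc⟩ : ∃ c : ℝ, ∀ A, 0 ≤ K A + c := ⟨- K ∅, fun A => by
    have := hK (Finset.empty_subset A); linarith⟩
  have h1 := hlay (fun A => K A + c) hc (fun A B hAB => by simpa using hK hAB)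
  have h2 := sum_eq f ha
  have h3 : ∑ A, (K A + c) * (sqp f A - til f A) =
      (∑ A, K A * sqp f A - ∑ A, K A * til f A) + c * (∑ A, sqp f A - ∑ A, til f A) := by
    rw [← Finset.sum_sub_distrib, ← Finset.sum_sub_distrib, Finset.mul_sum, ← Finset.sum_add_distrib]
    exact Finset.sum_congr rfl fun A _ => by ring
  rw [h3, h2, sub_self, mul_zero, add_zero] at h1
  linarith

end Pool.Agent.H90.CH
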